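import Pool.Agent.Q54.KP.StmA

/-!
# Project KP, job ABW: the absorbing set
-/

set_option autoImplicit false

namespace Pool.Agent.Q176.KP

open Finset Pool.Agent.Q54.KP

/-- greedy absorption of `N`-subsets of the classes of `cl` -/
theorem absorb {V : Type} [Fintype V] [DecidableEq V] (E : Finset (Finset V)) (t N M d : ℕ)
    (cl : V → Fin d) (F : Finset (Fin M → V)) (g : ℝ) (hN : 0 < N)
    (hF1 : ∀ A ∈ F, Til E t (univ.image A))
    (hF2 : ∀ A ∈ F, ∀ B ∈ F, A ≠ B → Disjoint (univ.image A) (univ.image B))
    (hab : ∀ a, ∀ S : Fin N → V, Function.Injective S → (∀ i, cl (S i) = a) →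
      g ≤ cnt (fun A : Fin M → V => A ∈ F ∧ Til E t (univ.image A ∪ univ.image S))) :
    ∀ (k : ℕ) (U : Finset V) (F' : Finset (Fin M → V)), U.card ≤ k → F' ⊆ F →
      Disjoint U (F.biUnion fun A => univ.image A) →
      (((F \ F').card * N + U.card : ℕ) : ℝ) ≤ g →
      ∃ U' ⊆ U, (U \ U').card ≤ d * N ∧ Til E t ((F'.biUnion fun A => univ.image A) ∪ U') := by
  classical
  intro k
  induction k with
  | zero =>
    intro U F' hU hF' _ _
    have hU0 : U = ∅ := Finset.card_eq_zero.1 (Nat.le_zero.1 hU)
    subst hU0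
    refine ⟨∅, le_rfl, by simp, ?_⟩
    rw [Finset.union_empty]
    exact til_biUnion F' _ (fun A hA => hF1 A (hF' hA))
      (fun A hA B hB h => hF2 A (hF' hA) B (hF' hB) h)
  | succ k ih =>
    intro U F' hU hF' hUW hg
    by_cases hsmall : U.card ≤ d * N
    · refine ⟨∅, by simp, by simpa using hsmall, ?_⟩
      rw [Finset.union_empty]
      exact til_biUnion F' _ (fun A hA => hF1 A (hF' hA))
        (fun A hA B hB h => hF2 A (hF' hA) B (hF' hB) h)
    push Not at hsmall
    obtain ⟨a, -, ha⟩ := Finset.exists_lt_card_fiber_of_mul_lt_card_of_maps_to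
      (s := U) (t := (univ : Finset (Fin d))) (f := cl) (n := N) (fun x _ => Finset.mem_univ _)
      (by simpa using hsmall)
    obtain ⟨S, hSU, hSc⟩ := Finset.exists_subset_card_eq ha.le
    have hSU' : S ⊆ U := hSU.trans (Finset.filter_subset _ _)
    have hSa : ∀ x ∈ S, cl x = a := fun x hx => (Finset.mem_filter.1 (hSU hx)).2
    let e : Fin N ≃ S := (Fintype.equivFinOfCardEq (by simpa using hSc)).symm
    let fS : Fin N → V := fun i => (e i : V)
    have hfS : Function.Injective fS := fun i j h => e.injective (Subtype.ext h)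
    have hfSi : univ.image fS = S := by
      ext x
      simp only [Finset.mem_image, Finset.mem_univ, true_and]
      constructor
      · rintro ⟨i, rfl⟩
        exact (e i).2
      · intro hx
        exact ⟨e.symm ⟨x, hx⟩, by simp [fS]⟩
    have h1 := hab a fS hfS (fun i => hSa _ (e i).2)
    rw [hfSi] at h1
    have hSpos : 0 < S.card := by omega
    have hUS : (U \ S).card + N = U.card := by
      rw [← hSc]
      exact Finset.card_sdiff_add_card_eq_card hSU'
    obtain ⟨A, hAF', hA⟩ : ∃ A ∈ F', Til E t (univ.image A ∪ S) := by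
      by_contra hcon
      push Not at hcon
      have h2 : cnt (fun A : Fin M → V => A ∈ F ∧ Til E t (univ.image A ∪ S)) ≤
          ((F \ F').card : ℝ) := by
        rw [cnt_eq_card]
        have : (univ.filter fun A : Fin M → V => A ∈ F ∧ Til E t (univ.image A ∪ S)) ⊆ F \ F' := by
          intro A hA
          simp only [Finset.mem_filter, Finset.mem_univ, true_and] at hA
          rw [Finset.mem_sdiff]
          exact ⟨hA.1, fun h => hcon A h hA.2⟩
        exact_mod_cast Finset.card_le_card this
      have h3 : (((F \ F').card * N + U.card : ℕ) : ℝ) ≤ ((F \ F').card : ℝ) := hg.trans (h1.trans h2)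
      have h4 : (F \ F').card * N + U.card ≤ (F \ F').card := by exact_mod_cast h3
      have h5 : (F \ F').card ≤ (F \ F').card * N := Nat.le_mul_of_pos_right _ hN
      omega
    have hAF : A ∈ F := hF' hAF'
    have hsub : F'.erase A ⊆ F := (Finset.erase_subset _ _).trans hF'
    have hcard : (F \ F'.erase A).card = (F \ F').card + 1 := by
      have : F \ F'.erase A = insert A (F \ F') := by
        ext B
        simp only [Finset.mem_sdiff, Finset.mem_erase, Finset.mem_insert]
        constructor
        · rintro ⟨hB, hB'⟩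
          by_cases hBA : B = A
          · exact Or.inl hBA
          · exact Or.inr ⟨hB, fun h => hB' ⟨hBA, h⟩⟩
        · rintro (rfl | ⟨hB, hB'⟩)
          · exact ⟨hAF, fun h => h.1 rfl⟩
          · exact ⟨hB, fun h => hB' h.2⟩
      rw [this, Finset.card_insert_of_notMem]
      intro h
      exact (Finset.mem_sdiff.1 h).2 hAF'
    obtain ⟨U'', hU'', hUc, hT⟩ := ih (U \ S) (F'.erase A) (by omega) hsub
      (Finset.disjoint_of_subset_left Finset.sdiff_subset hUW) (by
        rw [hcard]
        have : ((F \ F').card + 1) * N + (U \ S).card = (F \ F').card * N + U.card := by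
          rw [← hUS]; ring
        rw [this]
        exact hg)
    refine ⟨U'' ∪ S, Finset.union_subset (hU''.trans Finset.sdiff_subset) hSU', ?_, ?_⟩
    · have : U \ (U'' ∪ S) = (U \ S) \ U'' := by
        ext x
        simp only [Finset.mem_sdiff, Finset.mem_union, not_or]
        tauto
      rw [this]
      exact hUc
    · have heq : (F'.biUnion fun A => univ.image A) ∪ (U'' ∪ S) =
          (((F'.erase A).biUnion fun A => univ.image A) ∪ U'') ∪ (univ.image A ∪ S) := by
        have h6 : F'.biUnion (fun A => univ.image A) =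
            univ.image A ∪ (F'.erase A).biUnion fun A => univ.image A := by
          conv_lhs => rw [← Finset.insert_erase hAF']
          rw [Finset.biUnion_insert]
        rw [h6]
        ext x
        simp only [Finset.mem_union]
        tauto
      rw [heq]
      refine til_union hT hA ?_
      rw [Finset.disjoint_union_left, Finset.disjoint_union_right, Finset.disjoint_union_right]
      have hUW' : ∀ x ∈ U, ∀ B ∈ F, x ∉ univ.image B := by
        intro x hx B hB hxB
        exact (Finset.disjoint_left.1 hUW hx) (Finset.mem_biUnion.2 ⟨B, hB, hxB⟩)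
      refine ⟨⟨?_, ?_⟩, ?_, ?_⟩
      · rw [Finset.disjoint_biUnion_left]
        intro B hB
        exact hF2 B (hsub hB) A hAF (Finset.ne_of_mem_erase hB)
      · rw [Finset.disjoint_biUnion_left]
        intro B hB
        rw [Finset.disjoint_right]
        intro x hx
        exact hUW' x (hSU' hx) B (hsub hB)
      · rw [Finset.disjoint_left]
        intro x hx
        exact hUW' x ((hU''.trans Finset.sdiff_subset) hx) A hAF
      · rw [Finset.disjoint_left]
        intro x hx hxS
        exact (Finset.mem_sdiff.1 (hU'' hx)).2 hxS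

theorem abw : S_CLS → S_SIG → S_LAT → S_ABC → S_FAM → S_ABW := by
  classical
  intro hCLS hSIG hLAT hABC hFAM t c μ ht hc0 hc1 hμ
  obtain ⟨q, δ, hδ, β, hβ, m, n1, hcls⟩ := hCLS t c ht hc0 hc1
  obtain ⟨τ, hτ, n2, hsig⟩ := hSIG c δ q hc0 hδ
  obtain ⟨N, hN, X, hlat⟩ := hLAT q t (by omega)
  obtain ⟨γ, hγ, n3, habc⟩ := hABC q t m N X β τ (by omega) hN hβ hτ
  set M := 3 * t * X + (N + 3 * t * X) + (N + 3 * t * X) * m with hM
  obtain ⟨γ', hγ', n4, hfam⟩ := hFAM M N γ μ (by omega) hγ hμ
  refine ⟨γ', hγ', q * N, max (max n1 n2) (max n3 n4), ?_⟩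
  intro V _ _ E hcod hn
  have hn1 : n1 ≤ Fintype.card V := le_trans (by simp) hn
  have hn2 : n2 ≤ Fintype.card V := le_trans (by simp) hn
  have hn3 : n3 ≤ Fintype.card V := le_trans (by simp) hn
  have hn4 : n4 ≤ Fintype.card V := le_trans (by simp) hn
  obtain ⟨d, hdq, cl, hcl, hR⟩ := hcls V E hcod hn1
  obtain ⟨σ, hσ⟩ := hsig V E hcod hn2 d hdq cl hcl
  obtain ⟨F, hF1, hF2, hF3, hF4⟩ := hfam V
    (fun A => Function.Injective A ∧ Til E t (univ.image A))
    (fun S A => Function.Injective A ∧ (∀ i j, A i ≠ S j) ∧ Til E t (univ.image A) ∧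
      Til E t (univ.image A ∪ univ.image S))
    (fun S A h => ⟨h.1, h.2.2.1⟩) hn4
  refine ⟨F.biUnion fun A => univ.image A, ?_, ?_⟩
  · refine le_trans ?_ hF3
    have h1 : (F.biUnion fun A => univ.image A).card ≤ F.card * M := by
      refine Finset.card_biUnion_le_card_mul _ _ _ ?_
      intro A _
      refine Finset.card_image_le.trans ?_
      simp
    exact_mod_cast h1
  · intro U hUW hU
    obtain ⟨U', hU', hUc, hT⟩ := absorb E t N M d cl F (γ' * nn V) hN (fun A hA => (hF1 A hA).2)
      hF2 (by
        intro a S hS hSa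
        obtain ⟨x, y, hx, hxy⟩ := hlat d hdq σ a
        have h1 := habc V E hn3 d hdq cl σ hR hσ a x y hx hxy S hS hSa
        refine (hF4 S h1).trans (cnt_mono ?_)
        rintro A ⟨hAF, -, -, -, hA⟩
        exact ⟨hAF, hA⟩) U.card U F le_rfl le_rfl hUW (by
        rw [Finset.sdiff_self]
        simpa using hU)
    exact ⟨U', hU', hUc.trans (Nat.mul_le_mul_right _ hdq), hT⟩

end Pool.Agent.Q176.KP
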