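import Pool.Agent.Q54.KP.StmA

/-!
# Project KP, job PRT: the abstract partition lemma
-/

set_option autoImplicit false

namespace Pool.Agent.Q176.KP

open Finset Pool.Agent.Q54.KP

section
variable {V : Type} [Fintype V]

/-- independent sets -/
def Ind (R : V → V → Prop) (A : Finset V) : Prop := ∀ u ∈ A, ∀ v ∈ A, u ≠ v → ¬ R u v

open Classical in
/-- the independence number -/
noncomputable def am (R : V → V → Prop) : ℕ :=
  ((univ : Finset (Finset V)).filter (fun A => Ind R A)).sup card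

theorem le_am {R : V → V → Prop} {A : Finset V} (h : Ind R A) : A.card ≤ am R := by
  classical
  exact Finset.le_sup (f := card) (by simp [h])

theorem ex_am (R : V → V → Prop) : ∃ A, Ind R A ∧ A.card = am R := by
  classical
  obtain ⟨A, hA, h⟩ := Finset.exists_mem_eq_sup
    ((univ : Finset (Finset V)).filter (fun A => Ind R A))
    ⟨∅, by rw [Finset.mem_filter]; exact ⟨Finset.mem_univ _, fun u hu => absurd hu (by simp)⟩⟩ card
  refine ⟨A, (Finset.mem_filter.1 hA).2, ?_⟩
  apply le_antisymm (le_am (Finset.mem_filter.1 hA).2)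
  rw [← h]
  unfold am
  apply Finset.sup_le
  intro B hB
  exact Finset.le_sup (f := card) (Finset.mem_filter.2 ⟨Finset.mem_univ _,
    (Finset.mem_filter.1 hB).2⟩)

theorem cnt_ex_le {ι : Type} [Fintype ι] (P : ι → V → Prop) :
    cnt (fun u => ∃ j, P j u) ≤ ∑ j, cnt (P j) := by
  classical
  simp only [cnt_eq_card]
  have h : univ.filter (fun u => ∃ j, P j u) = univ.biUnion (fun j => univ.filter (P j)) := by
    ext; simp
  rw [h]
  exact_mod_cast Finset.card_biUnion_le

end

theorem prt : S_PRT := by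
  classical
  intro q δ hq hδ
  have hq0 : (0 : ℝ) < q := by exact_mod_cast hq
  have hq1 : (1 : ℝ) ≤ q := by exact_mod_cast hq
  refine ⟨δ / (4 * q ^ 2), by positivity, ⌈2 * q / δ⌉₊ + 1, ?_⟩
  intro V _ R hn hsym hmono hconc hpig hdeg
  set n : ℝ := nn V with hndef
  have hn1 : 2 * q / δ ≤ n := by
    have h1 : (2 * q / δ : ℝ) ≤ (⌈2 * q / δ⌉₊ : ℝ) := Nat.le_ceil _
    have h2 : ((⌈2 * q / δ⌉₊ + 1 : ℕ) : ℝ) ≤ (Fintype.card V : ℝ) := by exact_mod_cast hn
    push_cast at h2
    have h3 : n = (Fintype.card V : ℝ) := rfl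
    linarith
  have hn0 : 0 < n := lt_of_lt_of_le (by positivity) hn1
  have hVpos : 0 < Fintype.card V := by omega
  obtain ⟨v0⟩ : Nonempty V := Fintype.card_pos_iff.1 hVpos
  set ε : ℝ := δ / (4 * q ^ 2) with hε
  have hεpos : 0 < ε := by positivity
  have hεq : ε ≤ δ / (4 * q) := by
    rw [hε]
    apply div_le_div_of_nonneg_left hδ.le (by positivity)
    nlinarith
  have hεq2 : q ^ 2 * ε = δ / 4 := by
    rw [hε]; field_simp
  -- n * δ ≥ 2 q
  have hnδ : 2 * q ≤ δ * n := by
    rw [div_le_iff₀ hδ] at hn1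
    linarith
  -- monotonicity
  have hmono' : ∀ a b : ℕ, a ≤ b → b ≤ q + 2 → ∀ u v, u ≠ v → R a u v → R b u v := by
    intro a b hab
    induction b, hab using Nat.le_induction with
    | base => intro _ u v _ h; exact h
    | succ b hab ih =>
      intro hb u v huv h
      exact hmono b (by omega) u v huv (ih (by omega) u v huv h)
  have hind : ∀ s ≤ q + 1, ∀ A, Ind (R (s + 1)) A → Ind (R s) A := by
    intro s hs A hA u hu v hv huv h
    exact hA u hu v hv huv (hmono s hs u v huv h)
  have ham : ∀ s ≤ q + 1, am (R (s + 1)) ≤ am (R s) := by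
    intro s hs
    obtain ⟨A, hA, hc⟩ := ex_am (R (s + 1))
    rw [← hc]
    exact le_am (hind s hs A hA)
  have ham0 : am (R 0) ≤ q := by
    obtain ⟨A, hA, hc⟩ := ex_am (R 0)
    by_contra hcon
    push Not at hcon
    obtain ⟨B, hB, hBc⟩ := Finset.exists_subset_card_eq (s := A) (n := q + 1) (by omega)
    obtain ⟨u, hu, v, hv, huv, h⟩ := hpig B hBc
    exact hA u (hB hu) v (hB hv) huv h
  have ham1 : ∀ s, 1 ≤ am (R s) := by
    intro s
    have : ({v0} : Finset V).card ≤ am (R s) := le_am (by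
      intro u hu v hv huv
      simp only [Finset.mem_singleton] at hu hv
      exact absurd (hu.trans hv.symm) huv)
    simpa using this
  obtain ⟨s, hsq, hs⟩ : ∃ s < q, am (R s) = am (R (s + 1)) := by
    by_contra hcon
    push Not at hcon
    have key : ∀ s ≤ q, am (R s) + s ≤ q := by
      intro s
      induction s with
      | zero => intro _; simpa using ham0
      | succ s ih =>
        intro hs
        have h1 := ih (by omega)
        have h2 := ham s (by omega)
        have h3 := hcon s (by omega)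
        omega
    have := key q le_rfl
    have := ham1 q
    omega
  obtain ⟨A, hA, hAc⟩ := ex_am (R (s + 1))
  set d := am (R s) with hd
  have hdq : d ≤ q := by
    have : ∀ t ≤ q, am (R t) ≤ am (R 0) := by
      intro t
      induction t with
      | zero => intro _; exact le_rfl
      | succ t ih => intro ht; exact (ham t (by omega)).trans (ih (by omega))
    exact (this s (by omega)).trans ham0
  have hd1 : 1 ≤ d := ham1 s
  have hAd : A.card = d := by rw [hAc, ← hs]
  -- enumeration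
  let e : Fin d ≃ A := (Fintype.equivFinOfCardEq (by simpa using hAd)).symm
  let v : Fin d → V := fun i => (e i : V)
  have hvA : ∀ i, v i ∈ A := fun i => (e i).2
  have hvinj : Function.Injective v := fun i j h => e.injective (Subtype.ext h)
  have hvsurj : ∀ x ∈ A, ∃ i, v i = x := fun x hx => ⟨e.symm ⟨x, hx⟩, by simp [v]⟩
  have hvI : ∀ i j, i ≠ j → ¬ R (s + 1) (v i) (v j) := fun i j hij =>
    hA _ (hvA i) _ (hvA j) (fun h => hij (hvinj h))
  have hvI' : ∀ i j, i ≠ j → ¬ R s (v i) (v j) := fun i j hij h =>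
    hvI i j hij (hmono s (by omega) _ _ (fun h => hij (hvinj h)) h)
  -- the relation J
  let J : V → Fin d → Prop := fun u j => u = v j ∨ R s u (v j)
  have hJ : ∀ u, ∃ j, J u j := by
    intro u
    by_contra hcon
    push Not at hcon
    have huA : u ∉ A := by
      intro hu
      obtain ⟨i, hi⟩ := hvsurj u hu
      exact hcon i (Or.inl hi.symm)
    have h1 : Ind (R s) (insert u A) := by
      intro x hx y hy hxy h
      rw [Finset.mem_insert] at hx hy
      rcases hx with rfl | hx <;> rcases hy with rfl | hy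
      · exact hxy rfl
      · obtain ⟨i, rfl⟩ := hvsurj y hy
        exact hcon i (Or.inr h)
      · obtain ⟨i, rfl⟩ := hvsurj x hx
        exact hcon i (Or.inr (hsym _ _ _ h))
      · exact hind s (by omega) A hA x hx y hy hxy h
    have h2 := le_am h1
    rw [Finset.card_insert_of_notMem huA] at h2
    omega
  choose cc hcc using hJ
  -- dirty vertices
  let V0 : V → Prop := fun u => ∃ p : Fin d × Fin d, p.1 ≠ p.2 ∧ J u p.1 ∧ J u p.2
  have hV0 : cnt V0 ≤ δ / 4 * n := by
    have h1 : cnt V0 ≤ ∑ p : Fin d × Fin d, cnt (fun u => p.1 ≠ p.2 ∧ J u p.1 ∧ J u p.2) :=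
      cnt_ex_le (fun (p : Fin d × Fin d) u => p.1 ≠ p.2 ∧ J u p.1 ∧ J u p.2)
    have h2 : ∀ p ∈ (univ : Finset (Fin d × Fin d)),
        cnt (fun u => p.1 ≠ p.2 ∧ J u p.1 ∧ J u p.2) ≤ ε * n := by
      rintro ⟨i, j⟩ -
      by_cases hij : i = j
      · have : cnt (fun u => i ≠ j ∧ J u i ∧ J u j) = 0 := by
          rw [cnt_eq_card]
          simp [hij]
        simp only
        rw [this]
        positivity
      · by_contra hcon
        push Not at hcon
        apply hvI i j hij
        apply hconc s (by omega) _ _ (fun h => hij (hvinj h))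
        refine hcon.le.trans (cnt_mono ?_)
        rintro u ⟨-, h1, h2⟩
        have hui : u ≠ v i := by
          rintro rfl
          rcases h2 with h2 | h2
          · exact hij (hvinj h2)
          · exact hvI' i j hij h2
        have huj : u ≠ v j := by
          rintro rfl
          rcases h1 with h1 | h1
          · exact hij (hvinj h1).symm
          · exact hvI' j i (Ne.symm hij) h1
        refine ⟨hui, huj, hsym _ _ _ (h1.resolve_left hui), h2.resolve_left huj⟩
    refine h1.trans ((Finset.sum_le_card_nsmul _ _ _ h2).trans ?_)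
    simp only [Finset.card_univ, Fintype.card_prod, Fintype.card_fin, nsmul_eq_mul, Nat.cast_mul]
    have hdq' : (d : ℝ) ≤ q := by exact_mod_cast hdq
    have : (d : ℝ) * d ≤ q ^ 2 := by nlinarith [(Nat.cast_nonneg d : (0 : ℝ) ≤ d)]
    calc (d : ℝ) * d * (ε * n) ≤ q ^ 2 * (ε * n) := by
          apply mul_le_mul_of_nonneg_right this (by positivity)
      _ = q ^ 2 * ε * n := by ring
      _ = δ / 4 * n := by rw [hεq2]
  have hclean : ∀ u, ¬ V0 u → ∀ j, J u j → cc u = j := by
    intro u hu j hj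
    by_contra hne
    exact hu ⟨(cc u, j), hne, hcc u, hj⟩
  -- (i)
  have hi : ∀ u u', ¬ V0 u → ¬ V0 u' → u ≠ u' → cc u = cc u' → R s u u' := by
    intro u u' hu hu' huu hc
    by_contra hR
    set j := cc u with hj
    have hnu : ∀ i, i ≠ j → ¬ J u i := fun i hij h => hij (hclean u hu i h).symm
    have hnu' : ∀ i, i ≠ j → ¬ J u' i := fun i hij h => hij ((hclean u' hu' i h).symm.trans hc.symm)
    set B : Finset V := A.erase (v j) with hB
    have hBm : ∀ x ∈ B, ∃ i, i ≠ j ∧ v i = x := by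
      intro x hx
      rw [hB, Finset.mem_erase] at hx
      obtain ⟨i, hi⟩ := hvsurj x hx.2
      exact ⟨i, fun h => hx.1 (by rw [← hi, h]), hi⟩
    have huB : u ∉ B := by
      intro h
      obtain ⟨i, hij, hi⟩ := hBm u h
      exact hnu i hij (Or.inl hi.symm)
    have huB' : u' ∉ B := by
      intro h
      obtain ⟨i, hij, hi⟩ := hBm u' h
      exact hnu' i hij (Or.inl hi.symm)
    have h1 : Ind (R s) (insert u (insert u' B)) := by
      intro x hx y hy hxy h
      rw [Finset.mem_insert, Finset.mem_insert] at hx hy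
      rcases hx with rfl | rfl | hx <;> rcases hy with rfl | rfl | hy
      · exact hxy rfl
      · exact hR h
      · obtain ⟨i, hij, rfl⟩ := hBm y hy
        exact hnu i hij (Or.inr h)
      · exact hR (hsym _ _ _ h)
      · exact hxy rfl
      · obtain ⟨i, hij, rfl⟩ := hBm y hy
        exact hnu' i hij (Or.inr h)
      · obtain ⟨i, hij, rfl⟩ := hBm x hx
        exact hnu i hij (Or.inr (hsym _ _ _ h))
      · obtain ⟨i, hij, rfl⟩ := hBm x hx
        exact hnu' i hij (Or.inr (hsym _ _ _ h))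
      · exact hind s (by omega) A hA x (Finset.mem_of_mem_erase hx) y
          (Finset.mem_of_mem_erase hy) hxy h
    have h2 := le_am h1
    rw [Finset.card_insert_of_notMem, Finset.card_insert_of_notMem huB',
      Finset.card_erase_of_mem (hvA j)] at h2
    · omega
    · rw [Finset.mem_insert, not_or]
      exact ⟨huu, huB⟩
  -- clean R 0 - neighbours
  have hnb : ∀ u, 3 * δ / 4 * n ≤ cnt (fun w => (w ≠ u ∧ R 0 u w) ∧ ¬ V0 w) := by
    intro u
    have h1 := cnt_le_and_not_add (fun w => w ≠ u ∧ R 0 u w) V0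
    have h2 := hdeg u
    linarith
  have hex : ∀ u, ∃ j : Fin d, 3 * δ / (4 * q) * n ≤
      cnt (fun w => ((w ≠ u ∧ R 0 u w) ∧ ¬ V0 w) ∧ cc w = j) := by
    intro u
    by_contra hcon
    push Not at hcon
    have : Nonempty (Fin d) := ⟨⟨0, hd1⟩⟩
    have h1 : cnt (fun w => (w ≠ u ∧ R 0 u w) ∧ ¬ V0 w) ≤
        ∑ j : Fin d, cnt (fun w => ((w ≠ u ∧ R 0 u w) ∧ ¬ V0 w) ∧ cc w = j) := by
      refine (cnt_mono ?_).trans (cnt_ex_le
        (fun (j : Fin d) w => ((w ≠ u ∧ R 0 u w) ∧ ¬ V0 w) ∧ cc w = j))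
      intro w hw
      exact ⟨cc w, hw, rfl⟩
    have h2 : ∑ j : Fin d, cnt (fun w => ((w ≠ u ∧ R 0 u w) ∧ ¬ V0 w) ∧ cc w = j) <
        ∑ j : Fin d, (3 * δ / (4 * q) * n) :=
      Finset.sum_lt_sum_of_nonempty Finset.univ_nonempty (fun j _ => hcon j)
    rw [Finset.sum_const, Finset.card_univ, Fintype.card_fin, nsmul_eq_mul] at h2
    have h3 : (d : ℝ) * (3 * δ / (4 * q) * n) ≤ q * (3 * δ / (4 * q) * n) := by
      apply mul_le_mul_of_nonneg_right (by exact_mod_cast hdq) (by positivity)
    have h4 : (q : ℝ) * (3 * δ / (4 * q) * n) = 3 * δ / 4 * n := by field_simp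
    have h5 := hnb u
    linarith
  choose dc hdc using hex
  let cl : V → Fin d := fun u => if V0 u then dc u else cc u
  have hcl0 : ∀ u, V0 u → cl u = dc u := fun u hu => by simp [cl, hu]
  have hcl1 : ∀ u, ¬ V0 u → cl u = cc u := fun u hu => by simp [cl, hu]
  have hεn : ε * n ≤ 3 * δ / (4 * q) * n - 1 := by
    have h1 : ε * n ≤ δ / (4 * q) * n := mul_le_mul_of_nonneg_right hεq hn0.le
    have h2 : 3 * δ / (4 * q) * n - δ / (4 * q) * n = δ * n / (2 * q) := by
      field_simp; ring
    have h3 : 1 ≤ δ * n / (2 * q) := by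
      rw [le_div_iff₀ (by positivity)]
      linarith
    linarith
  -- (ii)
  have hii : ∀ u u', V0 u → ¬ V0 u' → cl u = cl u' → R (s + 1) u u' := by
    intro u u' hu hu' hc
    have huu : u ≠ u' := fun h => hu' (h ▸ hu)
    rw [hcl0 u hu, hcl1 u' hu'] at hc
    apply hconc s (by omega) u u' huu
    have h1 := hdc u
    have h2 := cnt_le_and_not_add
      (fun w => ((w ≠ u ∧ R 0 u w) ∧ ¬ V0 w) ∧ cc w = dc u) (fun w => w = u')
    have h3 : cnt (fun w => w = u') = 1 := by
      rw [cnt_eq_card]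
      have h30 : (univ.filter (fun w => w = u')) = {u'} := by ext; simp
      rw [h30]
      simp
    rw [h3] at h2
    have h4 : cnt (fun w => (((w ≠ u ∧ R 0 u w) ∧ ¬ V0 w) ∧ cc w = dc u) ∧ ¬ w = u') ≤
        cnt (fun w => w ≠ u ∧ w ≠ u' ∧ R s u w ∧ R s w u') := by
      apply cnt_mono
      rintro w ⟨⟨⟨⟨hw1, hw2⟩, hw3⟩, hw4⟩, hw5⟩
      exact ⟨hw1, hw5, hmono' 0 s (by omega) (by omega) u w (Ne.symm hw1) hw2,
        hi w u' hw3 hu' hw5 (hw4.trans hc)⟩
    linarith
  -- (iii)
  have hiii : ∀ u u', V0 u → V0 u' → u ≠ u' → cl u = cl u' → R (s + 2) u u' := by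
    intro u u' hu hu' huu hc
    apply hconc (s + 1) (by omega) u u' huu
    have h1 := hdc u
    have h4 : cnt (fun w => ((w ≠ u ∧ R 0 u w) ∧ ¬ V0 w) ∧ cc w = dc u) ≤
        cnt (fun w => w ≠ u ∧ w ≠ u' ∧ R (s + 1) u w ∧ R (s + 1) w u') := by
      apply cnt_mono
      rintro w ⟨⟨⟨hw1, hw2⟩, hw3⟩, hw4⟩
      have hwu' : w ≠ u' := fun h => hw3 (h ▸ hu')
      refine ⟨hw1, hwu', hmono' 0 (s + 1) (by omega) (by omega) u w (Ne.symm hw1) hw2,
        hsym _ _ _ (hii u' w hu' hw3 ?_)⟩
      rw [hcl1 w hw3, hw4, ← hcl0 u hu, hc]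
    linarith
  refine ⟨d, hdq, cl, ?_, ?_⟩
  · intro j
    have h1 := hnb (v j)
    have h2 : cnt (fun w => (w ≠ v j ∧ R 0 (v j) w) ∧ ¬ V0 w) ≤ cnt (fun w => cl w = j) := by
      apply cnt_mono
      rintro w ⟨⟨hw1, hw2⟩, hw3⟩
      rw [hcl1 w hw3]
      apply hclean w hw3
      exact Or.inr (hsym _ _ _ (hmono' 0 s (by omega) (by omega) (v j) w (Ne.symm hw1) hw2))
    have h3 : δ / 2 * n ≤ 3 * δ / 4 * n := by
      apply mul_le_mul_of_nonneg_right _ hn0.le
      linarith
    linarith
  · intro u u' huu hc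
    by_cases hu : V0 u <;> by_cases hu' : V0 u'
    · exact hmono' (s + 2) (q + 2) (by omega) le_rfl u u' huu (hiii u u' hu hu' huu hc)
    · exact hmono' (s + 1) (q + 2) (by omega) le_rfl u u' huu (hii u u' hu hu' hc)
    · exact hmono' (s + 1) (q + 2) (by omega) le_rfl u u' huu
        (hsym _ _ _ (hii u' u hu' hu hc.symm))
    · refine hmono' s (q + 2) (by omega) le_rfl u u' huu (hi u u' hu hu' huu ?_)
      rw [← hcl1 u hu, ← hcl1 u' hu', hc]

end Pool.Agent.Q176.KP
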